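import Pool.Agent.Helper446.Comp

/-!
A computable graph on the natural numbers with a computable bound for the neighbours of a vertex
which has a proper colouring with two colours has a computable proper colouring with four colours.
-/

set_option autoImplicit false

namespace Pool.Agent.NH86.Col

open Encodable Pool.Agent.Helper446

section

variable (b : ℕ → ℕ)

/-- The sum of the values of `b` below `v`. -/
def S (v : ℕ) : ℕ := Nat.rec (motive := fun _ => ℕ) 0 (fun x IH => IH + b x) v

theorem le_S {x v : ℕ} (h : x < v) : b x ≤ S b v := by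
  induction v with
  | zero => omega
  | succ v ih =>
    have h1 : S b (v + 1) = S b v + b v := rfl
    rcases Nat.lt_succ_iff_lt_or_eq.1 h with h2 | rfl
    · have := ih h2; omega
    · omega

/-- The ends of the blocks. -/
def L (n : ℕ) : ℕ := Nat.rec (motive := fun _ => ℕ) 0 (fun _ v => v + 1 + S b v) n

theorem L_zero : L b 0 = 0 := rfl
theorem L_succ (n : ℕ) : L b (n + 1) = L b n + 1 + S b (L b n) := rfl

theorem L_strictMono : StrictMono (L b) :=
  strictMono_nat_of_lt_succ fun n => by rw [L_succ]; omega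

variable {b}

theorem S_comp (hb : Computable b) : Computable (S b) := by
  have h1 : Computable₂ fun (_ : ℕ) (y : ℕ × ℕ) => y.2 + b y.1 := by
    unfold Computable₂
    have : Computable fun p : ℕ × ℕ × ℕ => b p.2.1 := hb.comp (by fun_prop)
    fun_prop
  exact (Computable.nat_rec (f := fun v : ℕ => v) (g := fun _ => 0)
    (h := fun _ y => y.2 + b y.1) Computable.id (Computable.const 0) h1).of_eq fun v => rfl

theorem L_comp (hb : Computable b) : Computable (L b) := by
  have h1 : Computable₂ fun (_ : ℕ) (y : ℕ × ℕ) => y.2 + 1 + S b y.2 := by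
    unfold Computable₂
    have : Computable fun p : ℕ × ℕ × ℕ => S b p.2.2 := (S_comp hb).comp (by fun_prop)
    fun_prop
  exact (Computable.nat_rec (f := fun v : ℕ => v) (g := fun _ => 0)
    (h := fun _ y => y.2 + 1 + S b y.2) Computable.id (Computable.const 0) h1).of_eq
    fun v => rfl

theorem exists_level (x : ℕ) : ∃ n, L b n ≤ x ∧ x < L b (n + 1) := by
  have h1 : ∃ n, x < L b (n + 1) := ⟨x, lt_of_lt_of_le (Nat.lt_succ_self x)
    ((L_strictMono b).id_le (x + 1))⟩
  classical
  refine ⟨Nat.find h1, ?_, Nat.find_spec h1⟩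
  by_contra h2
  rw [not_le] at h2
  rcases hn : Nat.find h1 with _ | k
  · rw [hn, L_zero] at h2; omega
  · rw [hn] at h2
    exact Nat.find_min h1 (m := k) (by omega) h2

theorem level_unique {x m n : ℕ} (h1 : L b m ≤ x) (h2 : x < L b (m + 1)) (h3 : L b n ≤ x)
    (h4 : x < L b (n + 1)) : m = n := by
  have a1 : L b m < L b (n + 1) := by omega
  have a2 : L b n < L b (m + 1) := by omega
  have := (L_strictMono b).lt_iff_lt.1 a1
  have := (L_strictMono b).lt_iff_lt.1 a2
  omega

theorem exists_lv (hb : Computable b) : ∃ lv : ℕ → ℕ, Computable lv ∧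
    ∀ x, L b (lv x) ≤ x ∧ x < L b (lv x + 1) := by
  choose lv hlv using exists_level (b := b)
  refine ⟨lv, ?_, hlv⟩
  have hL := L_comp hb
  have h1 : REPred fun x : ℕ × ℕ => L b x.2 ≤ x.1 ∧ x.1 < L b (x.2 + 1) := by
    refine RE.and (RE.le ?_ ?_) (RE.lt ?_ ?_)
    · exact hL.comp (by fun_prop)
    · fun_prop
    · fun_prop
    · exact hL.comp (by fun_prop)
  refine RE.computable_of_graph (h1.of_eq fun x => ?_)
  constructor
  · rintro ⟨h2, h3⟩
    exact level_unique (hlv x.1).1 (hlv x.1).2 h2 h3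
  · intro h2
    rw [← h2]
    exact hlv x.1

end

/-- The list `l` gives a proper colouring of the `n`-th block. -/
def Good (G : SimpleGraph ℕ) (b : ℕ → ℕ) (n : ℕ) (l : List Bool) : Prop :=
  ∀ x < L b (n + 1), ∀ y < L b (n + 1), x < L b n ∨ y < L b n ∨ ¬ G.Adj x y ∨
    (l[x]? = some true ∧ l[y]? ≠ some true) ∨ (l[x]? ≠ some true ∧ l[y]? = some true)

theorem exists_good {G : SimpleGraph ℕ} (hc : G.Colorable 2) (b : ℕ → ℕ) (n : ℕ) :
    ∃ l, Good G b n l := by
  obtain ⟨C⟩ := hc
  refine ⟨(List.range (L b (n + 1))).map fun x => decide (C x = 0), fun x hx y hy => ?_⟩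
  by_cases h : G.Adj x y
  · right; right; right
    have h1 := C.valid h
    rw [List.getElem?_map, List.getElem?_map, List.getElem?_range hx, List.getElem?_range hy]
    simp only [Option.map_some]
    generalize C x = u at h1 ⊢
    generalize C y = v at h1 ⊢
    revert h1
    revert u v
    decide
  · exact Or.inr (Or.inr (Or.inl h))

theorem good_re {G : SimpleGraph ℕ} (hG : ComputablePred fun p : ℕ × ℕ => G.Adj p.1 p.2)
    {b : ℕ → ℕ} (hb : Computable b) : REPred fun x : ℕ × List Bool => Good G b x.1 x.2 := by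
  have hL := L_comp hb
  have hG' : REPred fun p : ℕ × ℕ => ¬ G.Adj p.1 p.2 := hG.not.to_re
  unfold Good
  refine RE.all_lt (p := fun (z : ℕ × List Bool) x => ∀ y < L b (z.1 + 1),
    x < L b z.1 ∨ y < L b z.1 ∨ ¬ G.Adj x y ∨
    (z.2[x]? = some true ∧ z.2[y]? ≠ some true) ∨ (z.2[x]? ≠ some true ∧ z.2[y]? = some true))
    ?_ (hL.comp (by fun_prop))
  refine RE.all_lt (p := fun (z : (ℕ × List Bool) × ℕ) y =>
    z.2 < L b z.1.1 ∨ y < L b z.1.1 ∨ ¬ G.Adj z.2 y ∨
    (z.1.2[z.2]? = some true ∧ z.1.2[y]? ≠ some true) ∨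
    (z.1.2[z.2]? ≠ some true ∧ z.1.2[y]? = some true))
    ?_ (hL.comp (by fun_prop))
  refine RE.or (RE.lt ?_ ?_) (RE.or (RE.lt ?_ ?_) (RE.or ?_ (RE.or (RE.and (RE.eq ?_ ?_)
    (RE.ne ?_ ?_)) (RE.and (RE.ne ?_ ?_) (RE.eq ?_ ?_)))))
  · fun_prop
  · exact hL.comp (by fun_prop)
  · fun_prop
  · exact hL.comp (by fun_prop)
  · exact RE.comp hG' (f := fun x : ((ℕ × List Bool) × ℕ) × ℕ => (x.1.2, x.2)) (by fun_prop)
  all_goals fun_prop

theorem exists_colouring {G : SimpleGraph ℕ}
    (hG : ComputablePred fun p : ℕ × ℕ => G.Adj p.1 p.2) (hc : G.Colorable 2)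
    {b : ℕ → ℕ} (hb : Computable b) (hbd : ∀ x y, G.Adj x y → y ≤ b x) :
    ∃ c : ℕ → ℕ, Computable c ∧ (∀ x, c x < 4) ∧ ∀ x y, G.Adj x y → c x ≠ c y := by
  obtain ⟨lv, hlv, hlv'⟩ := exists_lv hb
  obtain ⟨f, hf, hf1, hf2⟩ := RE.uniformize (r := fun n l => Good G b n l) (good_re hG hb)
  have hdom : ∀ n, (f n).Dom := fun n => (hf1 n).2 (exists_good hc b n)
  have hex : ∀ n, ∃ l, l ∈ f n := fun n => ⟨_, Part.get_mem (hdom n)⟩
  choose g hg using hex
  have hgc : Computable g := by
    refine hf.of_eq fun n => Part.eq_some_iff.2 (hg n)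
  have hgood : ∀ n, Good G b n (g n) := fun n => hf2 n _ (hg n)
  have hbit : ComputablePred fun x : ℕ => (g (lv x))[x]? = some true := by
    refine RE.cp_eq ?_ ?_
    · have : Computable fun x : ℕ => g (lv x) := hgc.comp hlv
      fun_prop
    · fun_prop
  have hpar : Computable fun x : ℕ => lv x % 2 :=
    (Primrec.nat_mod.to_comp.comp hlv (Computable.const 2))
  classical
  refine ⟨fun x => 2 * (lv x % 2) + (if (g (lv x))[x]? = some true then 1 else 0), ?_, ?_, ?_⟩
  · have h1 : Computable fun x : ℕ => (if (g (lv x))[x]? = some true then 1 else 0 : ℕ) :=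
      RE.cite hbit (by fun_prop) (by fun_prop)
    fun_prop
  · intro x
    dsimp only
    split_ifs <;> omega
  · intro x y hxy hcon
    dsimp only at hcon
    have hx := hlv' x
    have hy := hlv' y
    have key : ∀ {x y : ℕ}, G.Adj x y → lv y ≤ lv x + 1 := by
      intro x y hxy
      have hx := hlv' x
      have hy := hlv' y
      have h1 : b x ≤ S b (L b (lv x + 1)) := le_S b hx.2
      have h2 := hbd x y hxy
      have h3 : y < L b (lv x + 2) := by
        rw [L_succ]
        omega
      by_contra hcon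
      rw [not_le] at hcon
      have h4 : L b (lv x + 2) ≤ L b (lv y) := (L_strictMono b).monotone (by omega)
      omega
    have h1 := key hxy
    have h2 := key hxy.symm
    have h3 : lv x = lv y := by
      split_ifs at hcon <;> omega
    have h4 := hgood (lv x) x hx.2 y (by rw [h3]; exact hy.2)
    rw [h3] at hcon hx h4
    rcases h4 with h4 | h4 | h4 | ⟨h4, h5⟩ | ⟨h4, h5⟩
    · omega
    · omega
    · exact h4 hxy
    · rw [if_pos h4, if_neg h5] at hcon; omega
    · rw [if_neg h4, if_pos h5] at hcon; omega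

end Pool.Agent.NH86.Col
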