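import Mathlib

/-!
The code of a finite set of natural numbers is the code of a list of its elements.
-/

set_option autoImplicit false

namespace Pool.Agent.NH86.Enc

theorem enc_fin (F : Finset ℕ) : ∃ l : List ℕ,
    Encodable.encode l = Encodable.encode F ∧ ∀ y, y ∈ l ↔ y ∈ F := by
  have h1 : Encodable.decode (α := Multiset ℕ) (Encodable.encode F.val) = some F.val :=
    Encodable.encodek _
  have h2 : Option.map (fun l : List ℕ => (l : Multiset ℕ))
      (Encodable.decode (α := List ℕ) (Encodable.encode F.val)) = some F.val := h1
  obtain ⟨l, hl, hl2⟩ := Option.map_eq_some_iff.1 h2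
  refine ⟨l, ?_, fun y => ?_⟩
  · have h3 : Encodable.encode l = Encodable.encode F.val := by
      have h4 : Denumerable.ofNat (List ℕ) (Encodable.encode F.val) = l := by
        have := Denumerable.decode_eq_ofNat (List ℕ) (Encodable.encode F.val)
        rw [this] at hl
        exact Option.some_inj.1 hl
      rw [← h4, Denumerable.encode_ofNat]
    rw [h3]
    rfl
  · rw [← Finset.mem_val, ← hl2]
    simp

end Pool.Agent.NH86.Enc
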