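import Pool.Agent.Helper446.Oracle

/-!
A 1-generic set below the halting problem, and the fact that it computes no noncomputable
recursively enumerable set.
-/

set_option autoImplicit false

namespace Pool.Agent.NH86.Gen

open Encodable Pool.Agent.Helper446 Pool.Agent.Helper446.Defs Pool.Agent.Helper446.Oracle
open Nat.Partrec (Code)

/-- Conditions: finite positive and finite negative information. -/
abbrev Cd := List ℕ × List ℕ

/-- Consistency of a condition. -/
def Cons (c : Cd) : Prop := ∀ x ∈ c.1, x ∉ c.2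

/-- The union of two conditions. -/
def mg (c d : Cd) : Cd := (c.1 ++ d.1, c.2 ++ d.2)

/-- The halting problem. -/
def K : Set ℕ := {n | ((Denumerable.ofNat Code n).eval n).Dom}

section basic

variable {α β : Type*} [Primcodable α] [Primcodable β]

/-- The halting problem is complete. -/
theorem exists_red {p : α → Prop} (hp : REPred p) :
    ∃ f : α → ℕ, Computable f ∧ ∀ a, p a ↔ f a ∈ K := by
  have h1 : Partrec (fun x : ℕ × ℕ =>
      (decode (α := α) x.1 : Part α).bind fun a => Part.assert (p a) fun _ => Part.some ()) := by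
    have h2 : Partrec (fun x : ℕ × ℕ => (decode (α := α) x.1 : Part α)) :=
      Computable.ofOption (Computable.decode.comp Computable.fst)
    exact Partrec.bind h2 (Partrec.comp hp Computable.snd)
  obtain ⟨c, hc⟩ := Nat.Partrec.Code.exists_code.1 h1
  refine ⟨fun a => encode (Code.curry c (encode a)), ?_, fun a => ?_⟩
  · have h3 : Computable fun a : α => Code.curry c (encode a) :=
      Nat.Partrec.Code.primrec₂_curry.to_comp.comp (Computable.const c) Computable.encode
    exact Computable.encode.comp h3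
  · show p a ↔ ((Denumerable.ofNat Code (encode (Code.curry c (encode a)))).eval _).Dom
    rw [Denumerable.ofNat_encode, Code.eval_curry, hc]
    simp only [decode_prod_val, Nat.unpair_pair, Encodable.encodek, decode_nat, Option.map_some,
      Option.bind_some, Part.coe_some, Part.bind_some, Part.map_Dom]
    constructor
    · intro h; exact ⟨h, trivial⟩
    · rintro ⟨h, -⟩; exact h

theorem rein_not {p : α → Prop} (hp : REPred p) : REIn K fun a => ¬ p a := by
  obtain ⟨f, hf, h⟩ := exists_red hp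
  exact (REIn.not_mem hf).of_eq fun a => not_congr (h a).symm

theorem graph_re {f : α →. β} (hf : Partrec f) : REPred fun x : α × β => x.2 ∈ f x.1 := by
  have h1 : Partrec fun x : α × β => (f x.1).bind fun b =>
      Part.assert (b = x.2) fun _ => Part.some () := by
    refine Partrec.bind (hf.comp Computable.fst) ?_
    exact RE.eq (f := fun y : (α × β) × β => y.2) (g := fun y => y.1.2) Computable.snd
      (Computable.snd.comp Computable.fst)
  refine h1.dom_re.of_eq fun x => ?_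
  simp only [Part.bind_dom]
  constructor
  · rintro ⟨h2, h3, -⟩
    rw [← h3]
    exact Part.get_mem h2
  · intro h
    exact ⟨Part.dom_iff_mem.2 ⟨_, h⟩, Part.get_eq_of_mem h _, trivial⟩

end basic

theorem cons_re {α : Type*} [Primcodable α] {f : α → Cd} (hf : Computable f) :
    REPred fun a => Cons (f a) := by
  refine RE.all_mem (p := fun (a : α) (x : ℕ) => x ∉ (f a).2) ?_ (by fun_prop)
  exact RE.not_mem_list (by fun_prop) (by fun_prop)

theorem mg_comp {α : Type*} [Primcodable α] {f g : α → Cd} (hf : Computable f)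
    (hg : Computable g) : Computable fun a => mg (f a) (g a) := by
  unfold mg
  fun_prop

/-- The `e`-th recursively enumerable set of conditions. -/
def U (e : ℕ) (c : Cd) : Prop := ∃ s, RE.wst Cd e s c = true

theorem u_re : REPred fun x : ℕ × Cd => U x.1 x.2 := by
  refine RE.exN (p := fun (x : ℕ × Cd) s => RE.wst Cd x.1 s x.2 = true) (RE.of_bool ?_)
  exact RE.wst_comp.comp (f := fun p : (ℕ × ℕ) × Cd => RE.wst Cd p.1.1 p.1.2 p.2)
    (g := fun x : (ℕ × Cd) × ℕ => ((x.1.1, x.2), x.1.2)) (by fun_prop)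

theorem sel_exists : ∃ f : ℕ × Cd →. Cd, Partrec f ∧
    (∀ a, (f a).Dom ↔ ∃ c, U a.1 c ∧ Cons (mg a.2 c)) ∧
    ∀ a, ∀ c ∈ f a, U a.1 c ∧ Cons (mg a.2 c) := by
  refine RE.uniformize (r := fun (a : ℕ × Cd) (c : Cd) => U a.1 c ∧ Cons (mg a.2 c)) ?_
  refine RE.and ?_ (cons_re (mg_comp (by fun_prop) (by fun_prop)))
  exact RE.comp u_re (f := fun x : (ℕ × Cd) × Cd => (x.1.1, x.2)) (by fun_prop)

/-- The selector. -/
noncomputable def sel : ℕ × Cd →. Cd := sel_exists.choose

theorem sel_partrec : Partrec sel := sel_exists.choose_spec.1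
theorem sel_dom (a : ℕ × Cd) : (sel a).Dom ↔ ∃ c, U a.1 c ∧ Cons (mg a.2 c) :=
  sel_exists.choose_spec.2.1 a
theorem sel_mem {a : ℕ × Cd} {c : Cd} (h : c ∈ sel a) : U a.1 c ∧ Cons (mg a.2 c) :=
  sel_exists.choose_spec.2.2 a c h

/-- Decide the number `e`. -/
def fin (e : ℕ) (d : Cd) : Cd := if e ∈ d.1 then d else (d.1, e :: d.2)

theorem fin_comp {α : Type*} [Primcodable α] {f : α → ℕ} {g : α → Cd} (hf : Computable f)
    (hg : Computable g) : Computable fun a => fin (f a) (g a) := by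
  unfold fin
  exact RE.cite (RE.cp_mem hf (by fun_prop)) hg (by fun_prop)

open Classical in
/-- One step. -/
noncomputable def F (e : ℕ) (d : Cd) : Cd :=
  if h : (sel (e, d)).Dom then fin e (mg d ((sel (e, d)).get h)) else fin e d

theorem F_iff (e : ℕ) (d d' : Cd) : F e d = d' ↔
    (∃ c, c ∈ sel (e, d) ∧ fin e (mg d c) = d') ∨ (¬ (sel (e, d)).Dom ∧ fin e d = d') := by
  unfold F
  by_cases h : (sel (e, d)).Dom
  · rw [dif_pos h]
    constructor
    · intro h1
      exact Or.inl ⟨_, Part.get_mem h, h1⟩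
    · rintro (⟨c, hc, h1⟩ | ⟨h1, -⟩)
      · rw [Part.get_eq_of_mem hc h]; exact h1
      · exact absurd h h1
  · rw [dif_neg h]
    constructor
    · intro h1
      exact Or.inr ⟨h, h1⟩
    · rintro (⟨c, hc, h1⟩ | ⟨-, h1⟩)
      · exact absurd (Part.dom_iff_mem.2 ⟨c, hc⟩) h
      · exact h1

theorem F_rein : REIn K fun x : (ℕ × Cd) × Cd => F x.1.1 x.1.2 = x.2 := by
  have h1 : REIn K fun x : (ℕ × Cd) × Cd =>
      (∃ c, c ∈ sel (x.1.1, x.1.2) ∧ fin x.1.1 (mg x.1.2 c) = x.2) ∨
      (¬ (sel (x.1.1, x.1.2)).Dom ∧ fin x.1.1 x.1.2 = x.2) := by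
    refine REIn.or (REIn.of_re ?_) (REIn.and ?_ (REIn.of_re ?_))
    · refine RE.ex (p := fun (x : (ℕ × Cd) × Cd) (c : Cd) =>
        c ∈ sel (x.1.1, x.1.2) ∧ fin x.1.1 (mg x.1.2 c) = x.2) (RE.and ?_ (RE.eq ?_ ?_))
      · exact RE.comp (graph_re sel_partrec)
          (f := fun y : ((ℕ × Cd) × Cd) × Cd => ((y.1.1.1, y.1.1.2), y.2)) (by fun_prop)
      · exact fin_comp (by fun_prop) (mg_comp (by fun_prop) (by fun_prop))
      · fun_prop
    · exact rein_not (p := fun x : (ℕ × Cd) × Cd => (sel (x.1.1, x.1.2)).Dom)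
        (RE.comp sel_partrec.dom_re (f := fun x : (ℕ × Cd) × Cd => (x.1.1, x.1.2))
          (by fun_prop))
    · refine RE.eq (fin_comp ?_ ?_) ?_ <;> fun_prop
  exact h1.of_eq fun x => (F_iff _ _ _).symm

/-- The sequence of conditions. -/
noncomputable def D : ℕ → Cd
  | 0 => ([], [])
  | e + 1 => F e (D e)

theorem D_rein : REIn K fun x : ℕ × Cd => D x.1 = x.2 := by
  have h1 : REIn K fun x : ℕ × Cd => ∃ L : List Cd, (L[0]? = some ([], []) ∧
      L[x.1]? = some x.2) ∧ ∀ i < x.1, ∃ p : Cd × Cd,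
        (L[i]? = some p.1 ∧ L[i + 1]? = some p.2) ∧ F i p.1 = p.2 := by
    refine REIn.ex (S := fun (x : ℕ × Cd) (L : List Cd) => (L[0]? = some ([], []) ∧
      L[x.1]? = some x.2) ∧ ∀ i < x.1, ∃ p : Cd × Cd,
        (L[i]? = some p.1 ∧ L[i + 1]? = some p.2) ∧ F i p.1 = p.2) ?_
    refine REIn.and (REIn.of_re (RE.and (RE.eq ?_ ?_) (RE.eq ?_ ?_))) ?_
    · fun_prop
    · fun_prop
    · fun_prop
    · fun_prop
    · refine REIn.all_lt (S := fun (x : (ℕ × Cd) × List Cd) (i : ℕ) => ∃ p : Cd × Cd,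
        (x.2[i]? = some p.1 ∧ x.2[i + 1]? = some p.2) ∧ F i p.1 = p.2) ?_ (by fun_prop)
      refine REIn.ex (S := fun (x : ((ℕ × Cd) × List Cd) × ℕ) (p : Cd × Cd) =>
        (x.1.2[x.2]? = some p.1 ∧ x.1.2[x.2 + 1]? = some p.2) ∧ F x.2 p.1 = p.2) ?_
      refine REIn.and (REIn.of_re (RE.and (RE.eq ?_ ?_) (RE.eq ?_ ?_))) ?_
      · fun_prop
      · fun_prop
      · fun_prop
      · fun_prop
      · exact F_rein.comp (f := fun y : (((ℕ × Cd) × List Cd) × ℕ) × (Cd × Cd) =>
          ((y.1.2, y.2.1), y.2.2)) (by fun_prop)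
  refine h1.of_eq fun x => ?_
  constructor
  · rintro ⟨L, ⟨h2, h3⟩, h4⟩
    have h5 : ∀ i ≤ x.1, L[i]? = some (D i) := by
      intro i
      induction i with
      | zero => intro _; rw [h2]; rfl
      | succ i ih =>
        intro hi
        obtain ⟨p, ⟨hp1, hp2⟩, hp3⟩ := h4 i (by omega)
        rw [ih (by omega)] at hp1
        rw [hp2, ← hp3, ← Option.some_inj.1 hp1]
        rfl
    have h6 := h5 x.1 le_rfl
    rw [h3] at h6
    exact (Option.some_inj.1 h6).symm
  · intro h
    refine ⟨(List.range (x.1 + 1)).map D, ⟨?_, ?_⟩, fun i hi => ⟨(D i, D (i + 1)), ⟨?_, ?_⟩, rfl⟩⟩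
    · simp; rfl
    · rw [← h]; simp
    · rw [List.getElem?_map, List.getElem?_range (by omega)]; rfl
    · rw [List.getElem?_map, List.getElem?_range (by omega)]; rfl

/-- The generic set. -/
def A : Set ℕ := {x | x ∈ (D (x + 1)).1}

theorem fin_cons {e : ℕ} {d : Cd} (h : Cons d) : Cons (fin e d) := by
  unfold fin
  split_ifs with he
  · exact h
  · intro x hx hx2
    rcases List.mem_cons.1 hx2 with rfl | hx2
    · exact he hx
    · exact h x hx hx2

theorem sub_fin (e : ℕ) (d : Cd) : d.1 ⊆ (fin e d).1 ∧ d.2 ⊆ (fin e d).2 := by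
  unfold fin
  split_ifs with he
  · exact ⟨fun x h => h, fun x h => h⟩
  · exact ⟨fun x h => h, fun x h => List.mem_cons_of_mem _ h⟩

theorem fin_dec (e : ℕ) (d : Cd) : e ∈ (fin e d).1 ∨ e ∈ (fin e d).2 := by
  unfold fin
  split_ifs with he
  · exact Or.inl he
  · exact Or.inr List.mem_cons_self

theorem F_cons {e : ℕ} {d : Cd} (h : Cons d) : Cons (F e d) := by
  rcases (F_iff e d _).1 rfl with ⟨c, hc, h1⟩ | ⟨_, h1⟩
  · rw [← h1]; exact fin_cons (sel_mem hc).2
  · rw [← h1]; exact fin_cons h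

theorem F_sub (e : ℕ) (d : Cd) : d.1 ⊆ (F e d).1 ∧ d.2 ⊆ (F e d).2 := by
  rcases (F_iff e d _).1 rfl with ⟨c, hc, h1⟩ | ⟨_, h1⟩
  · rw [← h1]
    obtain ⟨h2, h3⟩ := sub_fin e (mg d c)
    exact ⟨fun x hx => h2 (List.mem_append_left _ hx), fun x hx => h3 (List.mem_append_left _ hx)⟩
  · rw [← h1]; exact sub_fin e d

theorem F_dec (e : ℕ) (d : Cd) : e ∈ (F e d).1 ∨ e ∈ (F e d).2 := by
  rcases (F_iff e d _).1 rfl with ⟨c, hc, h1⟩ | ⟨_, h1⟩
  · rw [← h1]; exact fin_dec _ _
  · rw [← h1]; exact fin_dec _ _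

theorem D_cons (n : ℕ) : Cons (D n) := by
  induction n with
  | zero => intro x hx; simp [D] at hx
  | succ n ih => exact F_cons ih

theorem D_sub {m n : ℕ} (h : m ≤ n) : (D m).1 ⊆ (D n).1 ∧ (D m).2 ⊆ (D n).2 := by
  induction h with
  | refl => exact ⟨fun x h => h, fun x h => h⟩
  | step _ ih =>
    rename_i k _
    have h1 := F_sub k (D k)
    exact ⟨fun x hx => h1.1 (ih.1 hx), fun x hx => h1.2 (ih.2 hx)⟩

theorem ok_D (n : ℕ) : Ok A (D n) := by
  constructor
  · intro x hx
    show x ∈ (D (x + 1)).1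
    rcases le_total n (x + 1) with h | h
    · exact (D_sub h).1 hx
    · rcases F_dec x (D x) with h1 | h1
      · exact h1
      · exact absurd ((D_sub h).2 h1) (D_cons n x hx)
  · intro x hx hxA
    have hxA' : x ∈ (D (x + 1)).1 := hxA
    rcases le_total n (x + 1) with h | h
    · exact D_cons _ x hxA' ((D_sub h).2 hx)
    · exact D_cons _ x ((D_sub h).1 hxA') hx

/-- Genericity. -/
theorem generic {V : Cd → Prop} (hV : REPred V) :
    (∃ c, V c ∧ Ok A c) ∨ ∃ d, Ok A d ∧ ∀ c, V c → ¬ Cons (mg d c) := by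
  obtain ⟨e, he⟩ := RE.wst_univ hV
  by_cases h : (sel (e, D e)).Dom
  · left
    have hm := Part.get_mem h
    refine ⟨(sel (e, D e)).get h, (he _).2 (sel_mem hm).1, ?_⟩
    have h1 : F e (D e) = fin e (mg (D e) ((sel (e, D e)).get h)) := by
      unfold F; rw [dif_pos h]
    have h2 := ok_D (e + 1)
    have h3 : D (e + 1) = fin e (mg (D e) ((sel (e, D e)).get h)) := h1
    rw [h3] at h2
    obtain ⟨h4, h5⟩ := sub_fin e (mg (D e) ((sel (e, D e)).get h))
    exact ⟨fun x hx => h2.1 x (h4 (List.mem_append_right _ hx)),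
      fun x hx => h2.2 x (h5 (List.mem_append_right _ hx))⟩
  · right
    refine ⟨D e, ok_D e, fun c hc hcons => h ?_⟩
    exact (sel_dom _).2 ⟨c, (he c).1 hc, hcons⟩

theorem ok_cons {c : Cd} (h : Ok A c) : Cons c := fun x h1 h2 => h.2 x h2 (h.1 x h1)

theorem ok_mg {c d : Cd} (hc : Ok A c) (hd : Ok A d) : Ok A (mg c d) := hc.append hd

/-- A recursively enumerable predicate whose complement is enumerable in the generic set is
computable. -/
theorem computable_of_rein {α : Type*} [Primcodable α] {W : α → Prop} (hW : REPred W)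
    (hn : REIn A fun a => ¬ W a) : ComputablePred W := by
  refine RE.cp_of_re hW ?_
  obtain ⟨R, hR, hS⟩ := hn
  have hV : REPred fun c : Cd => ∃ a, W a ∧ R a c := by
    refine RE.ex (p := fun (c : Cd) (a : α) => W a ∧ R a c) (RE.and ?_ ?_)
    · exact RE.comp hW (f := fun x : Cd × α => x.2) (by fun_prop)
    · exact RE.comp hR (f := fun x : Cd × α => (x.2, x.1)) (by fun_prop)
  rcases generic hV with ⟨c, ⟨a, h1, h2⟩, h3⟩ | ⟨d, hd, h⟩
  · exact absurd h1 ((hS a).2 ⟨c, h2, h3⟩)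
  · have h1 : REPred fun a => ∃ c : Cd, R a c ∧ Cons (mg d c) := by
      refine RE.ex (p := fun (a : α) (c : Cd) => R a c ∧ Cons (mg d c)) (RE.and hR ?_)
      exact cons_re (mg_comp (by fun_prop) (by fun_prop))
    refine h1.of_eq fun a => ?_
    constructor
    · rintro ⟨c, h2, h3⟩ hWa
      exact h c ⟨a, hWa, h2⟩ h3
    · intro h2
      obtain ⟨c, h3, h4⟩ := (hS a).1 h2
      exact ⟨c, h3, ok_cons (ok_mg hd h4)⟩

theorem A_rein : REIn K (· ∈ A) ∧ REIn K (· ∉ A) := by
  have h0 : REIn K fun x : ℕ × Cd => D (x.1 + 1) = x.2 :=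
    D_rein.comp (f := fun x : ℕ × Cd => (x.1 + 1, x.2)) (by fun_prop)
  constructor
  · have h1 : REIn K fun x : ℕ => ∃ d : Cd, D (x + 1) = d ∧ x ∈ d.1 := by
      refine REIn.ex (S := fun (x : ℕ) (d : Cd) => D (x + 1) = d ∧ x ∈ d.1) (REIn.and h0 ?_)
      exact REIn.of_re (RE.mem_list (by fun_prop) (by fun_prop))
    refine h1.of_eq fun x => ?_
    constructor
    · rintro ⟨d, rfl, h⟩; exact h
    · intro h; exact ⟨_, rfl, h⟩
  · have h1 : REIn K fun x : ℕ => ∃ d : Cd, D (x + 1) = d ∧ x ∉ d.1 := by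
      refine REIn.ex (S := fun (x : ℕ) (d : Cd) => D (x + 1) = d ∧ x ∉ d.1) (REIn.and h0 ?_)
      exact REIn.of_re (RE.not_mem_list (by fun_prop) (by fun_prop))
    refine h1.of_eq fun x => ?_
    constructor
    · rintro ⟨d, rfl, h⟩; exact h
    · intro h; exact ⟨_, rfl, h⟩

theorem A_le_K : TuringReducible (chi A) (chi K) := turingReducible_iff.2 A_rein

theorem A_not_computable : ¬ ComputablePred fun n : ℕ => n ∈ A := by
  intro hA
  have hA1 : REPred fun n : ℕ => n ∈ A := hA.to_re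
  have hA2 : REPred fun n : ℕ => n ∉ A := hA.not.to_re
  have hV : REPred fun c : Cd => (∃ x ∈ c.1, x ∉ A) ∨ ∃ x ∈ c.2, x ∈ A := by
    refine RE.or ?_ ?_
    · exact RE.ex_mem (p := fun (_ : Cd) (x : ℕ) => x ∉ A) (RE.comp hA2 (by fun_prop))
        (by fun_prop)
    · exact RE.ex_mem (p := fun (_ : Cd) (x : ℕ) => x ∈ A) (RE.comp hA1 (by fun_prop))
        (by fun_prop)
  rcases generic hV with ⟨c, h1, h2⟩ | ⟨d, hd, h⟩
  · rcases h1 with ⟨x, hx, hxA⟩ | ⟨x, hx, hxA⟩
    · exact hxA (h2.1 x hx)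
    · exact h2.2 x hx hxA
  · obtain ⟨x, hx⟩ : ∃ x, x ∉ d.1 ++ d.2 := by
      obtain ⟨x, hx⟩ := Infinite.exists_notMem_finset (d.1 ++ d.2).toFinset
      exact ⟨x, by rwa [List.mem_toFinset] at hx⟩
    rw [List.mem_append, not_or] at hx
    have hdc := ok_cons hd
    by_cases hxA : x ∈ A
    · refine h ([], [x]) (Or.inr ⟨x, by simp, hxA⟩) ?_
      intro y hy hy2
      simp only [mg, List.append_nil, List.mem_append, List.mem_singleton] at hy hy2
      rcases hy2 with hy2 | rfl
      · exact hdc y hy hy2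
      · exact hx.1 hy
    · refine h ([x], []) (Or.inl ⟨x, by simp, hxA⟩) ?_
      intro y hy hy2
      simp only [mg, List.append_nil, List.mem_append, List.mem_singleton] at hy hy2
      rcases hy with hy | rfl
      · exact hdc y hy hy2
      · exact hx.2 hy2

end Pool.Agent.NH86.Gen
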